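import Pool.Agent.Helper22.TW.Stmts

set_option autoImplicit false

namespace Pool.Agent.Helper22.TW

open Pool.Agent.Helper14.BSC Polynomial

theorem rpl_memLL {k Ω : Type} [Field k] [Field Ω] [Algebra k Ω] (D : Sec k Ω) (x : Ω) :
    x ∈ LL D ↔ ∀ g, D.s g x = x := by
  constructor
  · intro h g
    exact h g (by intro a ha; exact absurd ha (Set.notMem_empty a))
  · intro h g _
    exact h g

/-- the inclusion of the fixed fields -/
def rpl_inc {k k' Ω : Type} [Field k] [Field k'] [Field Ω] [Algebra k Ω] [Algebra k' Ω]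
    (D : Sec k Ω) (D' : Sec k' Ω) (hf : ∀ x : Ω, (∀ g, D.s g x = x) → ∀ g, D'.s g x = x) :
    LL D →+* LL D' where
  toFun x := ⟨(x : Ω), (rpl_memLL D' _).2 (hf _ ((rpl_memLL D _).1 x.2))⟩
  map_one' := rfl
  map_mul' _ _ := rfl
  map_zero' := rfl
  map_add' _ _ := rfl

theorem rpl_coe {k k' Ω : Type} [Field k] [Field k'] [Field Ω] [Algebra k Ω] [Algebra k' Ω]
    (D : Sec k Ω) (D' : Sec k' Ω) (hf : ∀ x : Ω, (∀ g, D.s g x = x) → ∀ g, D'.s g x = x)
    (x : LL D) : ((rpl_inc D D' hf x : LL D') : Ω) = (x : Ω) := rfl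

theorem st_RPL : ST_RPL := by
  intro k k' Ω _ _ _ _ _ _ j D D' hj hf p _ σ' P'
  have hinc : ∀ c : k, rpl_inc D D' hf (algebraMap k (LL D) c) = algebraMap k' (LL D') (j c) := by
    intro c
    apply Subtype.ext
    rw [rpl_coe]
    have h1 : ((algebraMap k (LL D) c : LL D) : Ω) = algebraMap k Ω c := rfl
    have h2 : ((algebraMap k' (LL D') (j c) : LL D') : Ω) = algebraMap k' Ω (j c) := rfl
    rw [h1, h2, hj]
  let C : ValuationSubring (LL D) := P'.C.comap (rpl_inc D D' hf)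
  have hC : ∀ x : LL D, x ∈ C ↔ rpl_inc D D' hf x ∈ P'.C := fun x => Iff.rfl
  let φ : C →+* ℂ_[p] := P'.φ.comp
    { toFun := fun x => (⟨rpl_inc D D' hf x, (hC _).1 x.2⟩ : P'.C)
      map_one' := by apply Subtype.ext; rfl
      map_mul' := by intro x y; apply Subtype.ext; rfl
      map_zero' := by apply Subtype.ext; rfl
      map_add' := by intro x y; apply Subtype.ext; rfl }
  have hφ : ∀ (x : LL D) (hx : x ∈ C), φ ⟨x, hx⟩ = P'.φ ⟨rpl_inc D D' hf x, (hC _).1 hx⟩ :=
    fun x hx => rfl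
  refine ⟨⟨C, φ, ?_, ?_, P'.E, P'.finE, ?_⟩, ?_⟩
  · intro c
    obtain ⟨h, hh⟩ := P'.base (j c)
    have hm : algebraMap k (LL D) c ∈ C := by
      rw [hC, hinc]
      exact h
    refine ⟨hm, ?_⟩
    rw [hφ]
    have he : (⟨rpl_inc D D' hf (algebraMap k (LL D) c), (hC _).1 hm⟩ : P'.C) =
        ⟨algebraMap k' (LL D') (j c), h⟩ := Subtype.ext (hinc c)
    rw [he, hh]
    rfl
  · intro x
    have h1 := P'.ker ⟨rpl_inc D D' hf (x : LL D), (hC _).1 x.2⟩
    have h2 : φ x = P'.φ ⟨rpl_inc D D' hf (x : LL D), (hC _).1 x.2⟩ := rfl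
    rw [h2, h1]
    constructor
    · rintro (h | h)
      · left
        exact (map_eq_zero (rpl_inc D D' hf)).1 h
      · right
        rw [hC, map_inv₀]
        exact h
    · rintro (h | h)
      · left
        change rpl_inc D D' hf (x : LL D) = 0
        rw [h, map_zero]
      · right
        rw [hC, map_inv₀] at h
        exact h
  · intro x hx M hM δ hδ c g hcg
    have h2 : φ x = P'.φ ⟨rpl_inc D D' hf (x : LL D), (hC _).1 x.2⟩ := rfl
    rw [h2] at hx
    obtain ⟨w, hw, y, hy, h3, h4⟩ := P'.kum ⟨rpl_inc D D' hf (x : LL D), (hC _).1 x.2⟩ hx M hM δ hδ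
      (j c) (rpl_inc D D' hf g) (by
        change rpl_inc D D' hf (x : LL D) = _
        rw [hcg, map_mul, map_pow, hinc])
    exact ⟨w, hw, y, hy, by rw [h2]; exact h3, h4⟩
  · intro x x' hxx
    have he : rpl_inc D D' hf x = x' := Subtype.ext hxx
    refine ⟨by rw [← he]; exact hC x, ?_⟩
    intro hx hx'
    change P'.φ ⟨rpl_inc D D' hf x, (hC _).1 hx⟩ = _
    apply congrArg
    exact Subtype.ext he

end Pool.Agent.Helper22.TW
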